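import Pool.Agent.N184.QP.Nag

/-!
# The residue formula in fibrations and the fixed part of `H²`

Let `k` be a number field and `f : X → Y` a flat proper morphism of connected smooth projective
varieties over `k` with geometrically irreducible generic fibre, `m = dim Y`. Let `W` be the part of
`H²(1)` of the geometric generic fibre which is fixed by the geometric fundamental group of the locus
`U ⊆ Y` where `f` is smooth (over `ℚ`: the sum of these spaces over the embeddings of `k`), with the
action of the absolute Galois group of `ℚ`.

1. For every fibration the residue formula is a question on `W`: the series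
   `F(s) = ∑_v 𝔅_v(X) log q_v q_v ^ (-s)` has a meromorphic continuation to a neighbourhood of `2` with
   at most a simple pole and residue `c` there if and only if `∑_p tr(Φ_p | W) log p p ^ (-s)` has one to
   a neighbourhood of `1`, and if `c = r` is a natural number if and only if the `L`-function of `W` has
   a meromorphic continuation to a neighbourhood of `1` with a pole of order `r` at `1`.
2. The residue depends only on the traces of Frobenius on `W` for almost all `p`. By the theorem of
   Lefschetz on fundamental groups the restriction of `f` to a general smooth curve in `Y` (a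
   complete intersection) has the same `W`, and the same classes of divisors in it; so Q1 for
   `f` is Q1 for a fibration over a curve.
3. The residue formula holds, unconditionally, for all fibrations such that `W` is spanned by classes
   of divisors; by the theorems of the fixed part and of Lefschetz it suffices that no nonzero class
   of type `(2, 0)` is invariant under monodromy, that is that the holomorphic `2`-forms of `X` vanish
   on the fibres. Nothing is assumed about the base `Y`, about `H²(X)` or about `H²` of the fibres.

Examples for (3): all families of K3 surfaces which are not isotrivial, over any base; all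
families of surfaces with `p_g = 0`; the universal hypersurfaces or complete intersections of
dimension at least two; the powers `E ×_Y ... ×_Y E` (smooth models) of elliptic fibrations which are
not isotrivial. For these `X` Tate's conjecture is not known: `H²(X)` contains `H²(Y)`.

Idea of the proof. Deligne's Weil II: only `H_c^{2 m}(U, R² f_* ℚ_l) = W(-m-1)` contributes to the trace
formula modulo `O(q_v ^ (m + 1 / 2))`. The primes of degree at least two give an analytic function near
`2`. The character of the rational representation of a finite Galois group on the classes of divisors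
in `W` is a rational combination of permutation characters; for these we use the continuation of
the Dedekind zeta functions to a neighbourhood of `1`.
-/

set_option autoImplicit false

open NumberField Module IsDedekindDomain
open Pool.Agent.H921R2.TatePole (nm)
open Pool.Agent.N184.QP

namespace Pool.Agent.Results.MP_6090f9_nt.FixedPartResidues

/-- **The residue formula in fibrations depends only on the fixed part, and holds if the fixed part is
algebraic.** -/
theorem result :
    ∀ (k : Type) [Field k] [NumberField k] (W : Type) [AddCommGroup W] [Module ℂ W] [Module ℚ W]
      [FiniteDimensional ℂ W] (f : Fibration k W),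
      (∀ s : ℂ, 2 < s.re → Summable fun v : {v : HeightOneSpectrum (𝓞 k) // v ∉ f.R} =>
        f.avg v.1 * (Real.log (nm v.1) : ℝ) * (nm v.1 : ℂ) ^ (-s)) ∧
      (∀ s : ℂ, 1 < s.re → HasProd (fun p : {p : Nat.Primes // p ∉ f.S} =>
        (LinearMap.det (1 - (((p.1 : ℕ) : ℂ) ^ (-s)) • f.ρ (f.frob p.1)⁻¹))⁻¹) (f.L s)) ∧
      (∀ c : ℂ, HasRes f.series 2 c ↔ HasRes f.seriesW 1 c) ∧
      (∀ r : ℕ, HasRes f.series 2 r ↔ HasPole f.L 1 r) ∧
      (∀ (k' : Type) [Field k'] [NumberField k'] (W' : Type) [AddCommGroup W'] [Module ℂ W']
        [FiniteDimensional ℂ W'] (f' : Fibration k' W') (T : Finset Nat.Primes),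
        (∀ p, p ∉ T → p ∉ f.S → p ∉ f'.S →
          LinearMap.trace ℂ W (f.ρ (f.frob p)⁻¹) = LinearMap.trace ℂ W' (f'.ρ (f'.frob p)⁻¹)) →
        ∀ c : ℂ, HasRes f.series 2 c ↔ HasRes f'.series 2 c) ∧
      ∀ C : CycleSpace f.ρ,
        (Submodule.span ℂ (C.W₀ : Set W) = ⊤ ∨ ∃ D : HodgeSpace C, ∀ a, 0 < a → D.h a = ⊥) →
        FiniteDimensional ℚ C.A ∧ finrank ℚ C.A = finrank ℂ f.ρ.invariants ∧
          HasRes f.series 2 (finrank ℚ C.A) := by
  intro k _ _ W _ _ _ _ f
  refine ⟨fun s hs => f.summable_series hs, fun s hs => ?_, fun c => f.hasRes_iff c,
    fun r => ?_, ?_, fun C h => ?_⟩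
  · rw [f.L_eq hs]
    exact f.hasProd_L hs
  · rw [f.hasRes_iff, f.hasPole_iff]
  · intro k' _ _ W' _ _ _ f' T h c
    exact ⟨f.hasRes_congr f' T h c,
      f'.hasRes_congr f T (fun p hT hS hS' => (h p hT hS' hS).symm) c⟩
  · rcases h with h | ⟨D, hD⟩
    · exact C.hasRes h
    · exact C.hasRes (D.span_eq_top hD)

end Pool.Agent.Results.MP_6090f9_nt.FixedPartResidues
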