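import Pool.Agent.N384.VF.Sf
import Pool.Agent.N384.VF.Ex
import Pool.Agent.N647.NG.Expl2

/-!
# MP_6090f9_nt: the residue formula for Frobenius averages on `H²` for almost all members of families of fibrations in
# surfaces whose coefficients are in families of vectors of residues

Let `K` be a number field, `F₀` and `h_1, ..., h_D` polynomials in `t`, `u = (u_1, ..., u_m)`, `m ≥ 0`, and `x` over its ring of
integers, `F₀` monic of odd degree `d` in `x`, and the `h_i` of smaller degree in `x`.  We study the fibrations over the affine space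
with the coordinates `u` (a point, if `m = 0`) whose fibres are the surfaces `y² = F_c(t, u, x)`, `F_c = F₀ + ∑ c_i h_i`; they are
fibred over the projective line with the coordinate `t`.  If the degree in `t` of the coefficient of `x ^ j` is at most `2 n (d - j)`,
these surfaces are projective: near `t = ∞` one puts `t = 1 / t'`, `x = x' / t' ^ (2 n)`, `y = y' / t' ^ (n d)`, and on every fibre of
the surface over the line there is one more point, a section.  If they are smooth, then `H¹ = H³ = 0`, and the trace of the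
Frobenius on `H²` of the surface over a point `u` over the residue field with `q_v` elements is the number of its points minus
`1 + q_v²`.  The average of these traces over all `u` is the number `𝔅_v` of the problem.  For `d = 3` these are elliptic surfaces
(rational for `n = 1`, K3 for `n = 2`).

According to the problem the series `∑ 𝔅_v log(q_v) q_v ^ (-z)` has the residue `rank NS(X/K(u)) = 2 + rank J(K(u, t))` at `z = 2`
(Shioda and Tate; `J` is the Jacobian of the generic fibre over the line), in particular for `m = 0` (the conjecture of Tate for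
surfaces).  If the base locus of the `h_i` consists of `r` sections over which `F₀` is a square, then the members have `r` explicit
points over `K(u, t)`.

The coefficients are `c_i = ∑ n_(i,j) ω_j` where the vector `n` runs through `c₀ + x_i`, `x_i` a family of vectors of residues
modulo some integer with small Fourier coefficients; for example all the `n_(i,j)` may be in cosets of subgroups of order
`p ^ (3/8 + δ)` of the multiplicative group modulo a prime `p`, or be the values of polynomials of different degrees.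
We show that for very few exceptions the sums `∑ w(v) (𝔅_v - (2 + r) q_v) log(q_v)` over the
prime ideals (of all degrees) with `q_v ≤ T` are at most `T ^ (3 / 2 + δ)`, and the Dirichlet polynomials
`∑ w(v) (𝔅_v - (2 + r) q_v) log(q_v) q_v ^ (-z)` over the prime ideals with `T₁ < q_v ≤ T₂` are at most `T₁ ^ (3 / 2 + δ - Re z)`
in the half plane `Re z ≥ 3 / 2 + δ` for `|Im z| ≤ T₁ ^ B`, with arbitrary weights (for example characters) from a set of at most
`Y ^ B` weights, without an arbitrary set of bad primes, for all `T`, `T₁`, `T₂` between `Y` and `N ^ κ`: as if the series and all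
its twists differed from those of `(2 + r) q_v` by a function which is holomorphic and of subpolynomial growth for `Re z > 3 / 2`.

From Mathlib: `ZMod.stdAddChar`: the additive character `j ↦ exp (2 π i j / q)` of the integers modulo `q`; `ZMod.val`: the
least residue; `Fintype.piFinset`: the product of finite sets.

Method: A family of vectors of residues modulo `q` with small Fourier coefficients is uniformly distributed
in the residue classes modulo all integers up to a power of `Z` (`N384/VF`: completion in each coordinate). The numbers of the points of the surfaces and of their fibres at infinity; for the fibration over the space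
with the coordinates `(t, u)` in curves: high moments of sums of local functions which are as large as `√q_v` (the bound of Weil,
`Pool.Agent.H341R2.Sharp`) but have bounded second moments (helper647, `Pool.Agent.N647.NG`). Examples: products, the lemma of Ajtai, Iwaniec, Komlos, Pintz and Szemeredi on quotients by small primes, the
Stepanov type lemma of Heath-Brown and Konyagin for subgroups (library `H435R3.HBK`, `N825.FC`), and Weyl sums without
losses (library `H373R2.NB`).
-/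

set_option autoImplicit false

namespace Pool.Agent.Results.MP_6090f9_nt.ResidueVectors

open Finset Polynomial NumberField IsDedekindDomain

/-- The Fourier coefficients of the vectors of residues `y i`, `i ∈ s`, modulo `q` at the nonzero frequencies are at most
`η` times the number of the vectors: `|∑ i ∈ s, e(h·y_i / q)| ≤ η |s|` for all vectors `h ≠ 0` modulo `q`. -/
def Flat {τ ι : Type} [Fintype ι] (q : ℕ) [NeZero q] (η : ℝ) (s : Finset τ) (y : τ → ι → ZMod q) : Prop :=
  ∀ h : ι → ZMod q, h ≠ 0 → ‖∑ i ∈ s, (ZMod.stdAddChar (∑ j, h j * y i j) : ℂ)‖ ≤ η * s.card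

/-- The same for residues (vectors with one coordinate). -/
def Flat1 {τ : Type} (q : ℕ) [NeZero q] (η : ℝ) (s : Finset τ) (y : τ → ZMod q) : Prop :=
  ∀ h : ZMod q, h ≠ 0 → ‖∑ i ∈ s, (ZMod.stdAddChar (h * y i) : ℂ)‖ ≤ η * s.card

/-- `Z ≤ q`, and the Fourier coefficients at the nonzero frequencies are at most `|s| / (Z (42 + 3 log q) ^ r)`, where `r` is
the number of the coordinates. -/
def Small {τ ι : Type} [Fintype ι] (q : ℕ) [NeZero q] (Z : ℝ) (s : Finset τ) (y : τ → ι → ZMod q) : Prop :=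
  Z ≤ q ∧ Flat q (1 / (Z * (42 + 3 * Real.log q) ^ Fintype.card ι)) s y

/-- The vector `c₀ + y_i` of integers `≥ 0`, with the least residues `0 ≤ y_i < q`. -/
def vec {τ ι : Type} {q : ℕ} (y : τ → ι → ZMod q) (c₀ : ι → ℕ) (i : τ) (j : ι) : ℕ := c₀ j + (y i j).val

section
variable {k : Type} [CommRing k]

/-- The polynomial of the fibre at `t = ∞` of the surface `y² = P(t, x)`: the coefficient of `X ^ j` is the coefficient of
`t ^ (2 n (d - j)) x ^ j` in `P`, where `d` is the degree of `P` in `x`. -/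
noncomputable def atInfinity (n : ℕ) (P : k[X][X]) : k[X] :=
  ∑ j ∈ range (P.natDegree + 1), C ((P.coeff j).coeff (2 * n * (P.natDegree - j))) * X ^ j

/-- The number of the points of the surface `y² = P(t, x)`: the points with `t ≠ ∞`, `x ≠ ∞`, the points with `t = ∞`, `x ≠ ∞`, and the
`q + 1` points of the section at `x = ∞`. -/
noncomputable def points (n : ℕ) (P : k[X][X]) : ℕ :=
  Nat.card {Q : k × k × k // Q.2.2 ^ 2 = (P.map (evalRingHom Q.1)).eval Q.2.1} +
    Nat.card {Q : k × k // Q.2 ^ 2 = (atInfinity n P).eval Q.1} + (Nat.card k + 1)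

/-- The trace of the Frobenius on `H²` of this surface, if it is smooth: the number of its points minus `1 + q²`. -/
noncomputable def traceTwo (n : ℕ) (P : k[X][X]) : ℝ := (points n P : ℝ) - 1 - (Nat.card k : ℝ) ^ 2

end

section
variable {K : Type} [Field K] [NumberField K] {m D g : ℕ}

/-- The coefficients `c_i = ∑ n_(i,j) ω_j`. -/
def coeff (ω : Fin g → 𝓞 K) (n : Fin (D * g) → ℕ) (i : Fin D) : 𝓞 K := ∑ j, (n (finProdFinEquiv (i, j)) : 𝓞 K) * ω j

/-- The polynomial `F_c = F₀ + ∑ c_i h_i`, in the variable `x` over the ring of the polynomials in the `m + 1` variables `t` (the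
variable number `0`) and `u_1, ..., u_m` (the variables `1, ..., m`). -/
noncomputable def member (F₀ : (MvPolynomial (Fin (m + 1)) (𝓞 K))[X]) (h : Fin D → (MvPolynomial (Fin (m + 1)) (𝓞 K))[X])
    (c : Fin D → 𝓞 K) : (MvPolynomial (Fin (m + 1)) (𝓞 K))[X] := F₀ + ∑ i, C (MvPolynomial.C (c i)) * h i

/-- The residue field of the prime ideal `v`. -/
abbrev Residue (v : HeightOneSpectrum (𝓞 K)) : Type := 𝓞 K ⧸ v.asIdeal

/-- The absolute norm `q_v`. -/
noncomputable def norm (v : HeightOneSpectrum (𝓞 K)) : ℝ := Ideal.absNorm v.asIdeal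

/-- The value `F(t, u, x)` at the point `P = ((t, u), x)` over the residue field of `v`. -/
noncomputable def val (v : HeightOneSpectrum (𝓞 K)) (F : (MvPolynomial (Fin (m + 1)) (𝓞 K))[X])
    (P : (Fin (m + 1) → Residue v) × Residue v) : Residue v :=
  (F.map (MvPolynomial.eval₂Hom (Ideal.Quotient.mk v.asIdeal) P.1)).eval P.2

/-- The polynomial `F(t, u, x)` in `t` and `x` over the residue field of `v`, for a point `u` over the residue field: the surface
over the point `u` is `y² = F(t, u, x)`. -/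
noncomputable def surface (v : HeightOneSpectrum (𝓞 K)) (F : (MvPolynomial (Fin (m + 1)) (𝓞 K))[X]) (u : Fin m → Residue v) :
    (Residue v)[X][X] :=
  F.map (MvPolynomial.eval₂Hom ((C : Residue v →+* (Residue v)[X]).comp (Ideal.Quotient.mk v.asIdeal)) (Fin.cons X fun i => C (u i)))

/-- The average `𝔅_v` of the traces on `H²` of the surfaces over all points `u` of the affine space over the residue field. -/
noncomputable def average (n : ℕ) (F : (MvPolynomial (Fin (m + 1)) (𝓞 K))[X]) (v : HeightOneSpectrum (𝓞 K)) : ℝ :=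
  (∑ᶠ u : Fin m → Residue v, traceTwo n (surface v F u)) / norm v ^ m

/-- The sum `∑ w(v) (𝔅_v - (2 + r) q_v) log(q_v)` over the prime ideals `v ∉ R` with `q_v ≤ T`. -/
noncomputable def partialSum (n : ℕ) (F : (MvPolynomial (Fin (m + 1)) (𝓞 K))[X]) (r : ℝ) (w : HeightOneSpectrum (𝓞 K) → ℝ) (T : ℕ)
    (R : Set (HeightOneSpectrum (𝓞 K))) : ℝ :=
  ∑ᶠ v ∈ {v : HeightOneSpectrum (𝓞 K) | Ideal.absNorm v.asIdeal ≤ T ∧ v ∉ R},
    w v * ((average n F v - (2 + r) * norm v) * Real.log (norm v))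

/-- The Dirichlet polynomial `∑ w(v) (𝔅_v - (2 + r) q_v) log(q_v) q_v ^ (-z)` over the prime ideals `v ∉ R` with
`T₁ < q_v ≤ T₂`. -/
noncomputable def dirichlet (n : ℕ) (F : (MvPolynomial (Fin (m + 1)) (𝓞 K))[X]) (r : ℝ) (w : HeightOneSpectrum (𝓞 K) → ℝ) (T₁ T₂ : ℕ)
    (R : Set (HeightOneSpectrum (𝓞 K))) (z : ℂ) : ℂ :=
  ∑ᶠ v ∈ {v : HeightOneSpectrum (𝓞 K) | T₁ < Ideal.absNorm v.asIdeal ∧ Ideal.absNorm v.asIdeal ≤ T₂ ∧ v ∉ R},
    ((w v * ((average n F v - (2 + r) * norm v) * Real.log (norm v)) : ℝ) : ℂ) * (norm v : ℂ) ^ (-z)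

/-- The values `h_i(P)` at a point `P` over the residue field outside the base locus are not a multiple of the values `h_i(Q)` at
another point `Q`. -/
def Separated (v : HeightOneSpectrum (𝓞 K)) (h : Fin D → (MvPolynomial (Fin (m + 1)) (𝓞 K))[X]) : Prop :=
  ∀ P Q : (Fin (m + 1) → Residue v) × Residue v, P ≠ Q → (∃ i, val v (h i) P ≠ 0) →
    ¬ ∃ l : Residue v, ∀ i, val v (h i) P = l * val v (h i) Q

/-- The number of the points `P` over the residue field in the base locus (the common zeros of the `h_i`). -/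
noncomputable def basePoints (v : HeightOneSpectrum (𝓞 K)) (h : Fin D → (MvPolynomial (Fin (m + 1)) (𝓞 K))[X]) : ℝ :=
  Nat.card {P : (Fin (m + 1) → Residue v) × Residue v // ∀ i, val v (h i) P = 0}

/-- The number of the points `(P, y)` over the residue field with `P` in the base locus and `y² = F₀(P)`. -/
noncomputable def coverPoints (v : HeightOneSpectrum (𝓞 K)) (F₀ : (MvPolynomial (Fin (m + 1)) (𝓞 K))[X])
    (h : Fin D → (MvPolynomial (Fin (m + 1)) (𝓞 K))[X]) : ℝ :=
  Nat.card {P : ((Fin (m + 1) → Residue v) × Residue v) × Residue v // (∀ i, val v (h i) P.1 = 0) ∧ P.2 ^ 2 = val v F₀ P.1}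

end

section
variable {K : Type} [Field K] [NumberField K] {m D g : ℕ}

/-- For all weights `w ∈ W` and all sets `R` of prime ideals which divide `Z(c)`: the sum of `w(v) (𝔅_v - (2 + r) q_v) log(q_v)`
over the prime ideals `v ∉ R` with `q_v ≤ T` is at most `T ^ (3 / 2 + δ)` in absolute value for `y ≤ T ≤ N ^ κ`, and the Dirichlet
polynomial over the `v ∉ R` with `T₁ < q_v ≤ T₂` is at most `T₁ ^ (3 / 2 + δ - Re z)` for `y ≤ T₁ ≤ T₂ ≤ N ^ κ`,
`Re z ≥ 3 / 2 + δ` and `|Im z| ≤ T₁ ^ B`. -/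
def Good (b : ℕ) (ω : Fin g → 𝓞 K) (F₀ : (MvPolynomial (Fin (m + 1)) (𝓞 K))[X]) (h : Fin D → (MvPolynomial (Fin (m + 1)) (𝓞 K))[X])
    (r : ℝ) (Z : MvPolynomial (Fin D) (𝓞 K)) (δ κ : ℝ) (B y N : ℕ) (W : Set (HeightOneSpectrum (𝓞 K) → ℝ)) (n : Fin (D * g) → ℕ) :
    Prop :=
  ∀ w ∈ W, ∀ R : Set (HeightOneSpectrum (𝓞 K)), (∀ v ∈ R, MvPolynomial.eval (coeff ω n) Z ∈ v.asIdeal) →
    (∀ T : ℕ, y ≤ T → (T : ℝ) ≤ (N : ℝ) ^ κ →
      |partialSum b (member F₀ h (coeff ω n)) r w T R| ≤ (T : ℝ) ^ (3 / 2 + δ)) ∧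
    (∀ T₁ T₂ : ℕ, y ≤ T₁ → T₁ ≤ T₂ → (T₂ : ℝ) ≤ (N : ℝ) ^ κ → ∀ z : ℂ, 3 / 2 + δ ≤ z.re → |z.im| ≤ (T₁ : ℝ) ^ B →
      ‖dirichlet b (member F₀ h (coeff ω n)) r w T₁ T₂ R z‖ ≤ (T₁ : ℝ) ^ (3 / 2 + δ - z.re))

/-- For all `δ > 0`, `A`, `B` there are `κ > 0` and `y₀` such that for all `Y ≥ y₀`, all `N` and all sets `W` of at most `Y ^ B`
weights with values in `[-1, 1]`: for all families of vectors `x_i`, `i ∈ s`, of `D g` residues modulo any `q` with Fourier
coefficients at most `|s| / (X (42 + 3 log q) ^ (D g))` at all nonzero frequencies, where `N ≤ X ≤ q`, and all vectors `c₀` of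
integers `≥ 0`: the member with the numbers `n = c₀ + x_i` is `Good` for all `i ∈ s` with the exception of at most a proportion
`1 / Y ^ A` of them. -/
def Holds (b : ℕ) (ω : Fin g → 𝓞 K) (F₀ : (MvPolynomial (Fin (m + 1)) (𝓞 K))[X]) (h : Fin D → (MvPolynomial (Fin (m + 1)) (𝓞 K))[X])
    (r : ℝ) (Z : MvPolynomial (Fin D) (𝓞 K)) : Prop :=
  ∀ δ : ℝ, 0 < δ → ∀ A B : ℕ, ∃ κ : ℝ, 0 < κ ∧ ∃ y₀ : ℕ, ∀ Y N : ℕ, y₀ ≤ Y → ∀ W : Set (HeightOneSpectrum (𝓞 K) → ℝ),
    W.Finite → W.ncard ≤ Y ^ B → (∀ w ∈ W, ∀ v, |w v| ≤ 1) →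
    ∀ (τ : Type) (q : ℕ) [NeZero q] (s : Finset τ) (x : τ → Fin (D * g) → ZMod q) (X : ℝ), (N : ℝ) ≤ X → Small q X s x →
      ∀ c₀ : Fin (D * g) → ℕ,
      ({i : τ | i ∈ s ∧ ¬ Good b ω F₀ h r Z δ κ B Y N W (vec x c₀ i)}.ncard : ℝ) ≤ 1 / (Y : ℝ) ^ A * s.card

lemma average_eq (b : ℕ) (F : (MvPolynomial (Fin (m + 1)) (𝓞 K))[X]) (v : HeightOneSpectrum (𝓞 K)) :
    average b F v = Pool.Agent.N647.NG.BB b (Pool.Agent.N647.NG.mkv v) F := by
  have hq : norm v = Nat.card (𝓞 K ⧸ v.asIdeal) := by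
    unfold norm
    rw [Pool.Agent.N842.HS.norm_card]
  unfold average Pool.Agent.N647.NG.BB
  rw [hq]
  rfl

lemma partialSum_eq (b : ℕ) (F : (MvPolynomial (Fin (m + 1)) (𝓞 K))[X]) (r : ℝ) (w : HeightOneSpectrum (𝓞 K) → ℝ) (T : ℕ)
    (R : Set (HeightOneSpectrum (𝓞 K))) [DecidablePred (fun v => v ∉ R)] :
    partialSum b F r w T R = ∑ v ∈ (Pool.Agent.N842.HS.VT K T).filter (fun v => v ∉ R),
      w v * ((Pool.Agent.N647.NG.BB b (Pool.Agent.N647.NG.mkv v) F - (2 + r) * Ideal.absNorm v.asIdeal) *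
        Real.log (Ideal.absNorm v.asIdeal)) := by
  classical
  have h1 : {v : HeightOneSpectrum (𝓞 K) | Ideal.absNorm v.asIdeal ≤ T ∧ v ∉ R} =
      (((Pool.Agent.N842.HS.VT K T).filter (fun v => v ∉ R) : Finset (HeightOneSpectrum (𝓞 K))) : Set (HeightOneSpectrum (𝓞 K))) := by
    ext v
    rw [mem_coe, mem_filter, Pool.Agent.N842.HS.mem_VT]
    exact Iff.rfl
  unfold partialSum
  rw [h1, finsum_mem_coe_finset]
  refine sum_congr rfl fun v _ => ?_
  rw [average_eq]
  rfl

lemma dirichlet_eq (b : ℕ) (F : (MvPolynomial (Fin (m + 1)) (𝓞 K))[X]) (r : ℝ) (w : HeightOneSpectrum (𝓞 K) → ℝ) (T₁ T₂ : ℕ)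
    (R : Set (HeightOneSpectrum (𝓞 K))) (z : ℂ) [DecidablePred (fun v => v ∉ R ∧ T₁ < Ideal.absNorm v.asIdeal)] :
    dirichlet b F r w T₁ T₂ R z = ∑ v ∈ (Pool.Agent.N842.HS.VT K T₂).filter (fun v => v ∉ R ∧ T₁ < Ideal.absNorm v.asIdeal),
      ((w v * ((Pool.Agent.N647.NG.BB b (Pool.Agent.N647.NG.mkv v) F - (2 + r) * Ideal.absNorm v.asIdeal) *
        Real.log (Ideal.absNorm v.asIdeal)) : ℝ) : ℂ) * (Ideal.absNorm v.asIdeal : ℂ) ^ (-z) := by
  classical
  have h1 : {v : HeightOneSpectrum (𝓞 K) | T₁ < Ideal.absNorm v.asIdeal ∧ Ideal.absNorm v.asIdeal ≤ T₂ ∧ v ∉ R} =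
      (((Pool.Agent.N842.HS.VT K T₂).filter (fun v => v ∉ R ∧ T₁ < Ideal.absNorm v.asIdeal) : Finset (HeightOneSpectrum (𝓞 K))) :
        Set (HeightOneSpectrum (𝓞 K))) := by
    ext v
    rw [mem_coe, mem_filter, Pool.Agent.N842.HS.mem_VT]
    constructor
    · rintro ⟨h1, h2, h3⟩
      exact ⟨h2, h3, h1⟩
    · rintro ⟨h2, h3, h1⟩
      exact ⟨h1, h2, h3⟩
  unfold dirichlet
  rw [h1, finsum_mem_coe_finset]
  refine sum_congr rfl fun v _ => ?_
  rw [average_eq]
  unfold norm
  push_cast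
  rfl

theorem holds_main (b : ℕ) (ω : Fin g → 𝓞 K) (hω : Submodule.span ℤ (Set.range ω) = ⊤)
    (F₀ : (MvPolynomial (Fin (m + 1)) (𝓞 K))[X]) (h : Fin D → (MvPolynomial (Fin (m + 1)) (𝓞 K))[X])
    (hF : F₀.Monic) (ho : Odd F₀.natDegree) (hh : ∀ i, (h i).natDegree < F₀.natDegree) (r C₀ : ℝ)
    (S : Set (HeightOneSpectrum (𝓞 K))) (hS : S.Finite) (hs : ∀ v ∉ S, Separated v h)
    (hb : ∀ v ∉ S, |coverPoints v F₀ h - basePoints v h - r * norm v ^ (m + 1)| ≤ C₀ * (norm v ^ (m + 1) / Real.sqrt (norm v)))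
    (Z : MvPolynomial (Fin D) (𝓞 K)) (hZ : Z ≠ 0) : Holds b ω F₀ h r Z := by
  classical
  intro δ hδ A B
  obtain ⟨g', hg'⟩ := ho
  obtain ⟨κ, hκ, y₀, h1⟩ := Pool.Agent.N384.VF.surfV b F₀ h hF hg' (fun i => by rw [← hg']; exact hh i) r C₀ S hS hs hb Z hZ ω hω
    δ hδ A B
  refine ⟨κ, hκ, y₀, fun y N hy W hW hWc hW1 τ q _ s x X hNX hsm c₀ => ?_⟩
  refine h1 y N hy W hW hWc hW1 (fun n => Good b ω F₀ h r Z δ κ B y N W n) (fun n hn w hw R hR => ?_) τ q s x X hNX ⟨hsm.1, hsm.2⟩ c₀
  obtain ⟨h2, h3⟩ := hn w hw R hR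
  refine ⟨fun T hyT hTN => ?_, fun T₁ T₂ hyT hT hTN z hz1 hz2 => ?_⟩
  · rw [partialSum_eq]
    exact h2 T hyT hTN
  · rw [dirichlet_eq]
    exact h3 T₁ T₂ hyT hT hTN z hz1 hz2

end

section explicit
variable (K : Type) [Field K] [NumberField K] (d r n e m : ℕ)

/-- `(x - 1) ⋯ (x - r)`. -/
noncomputable def linearFactors : (MvPolynomial (Fin (m + 1)) (𝓞 K))[X] :=
  ∏ j ∈ range r, (X - C (((j + 1 : ℕ) : MvPolynomial (Fin (m + 1)) (𝓞 K))))

/-- `(x - 1) ⋯ (x - r) x ^ (d - r) + t ^ (2 n d)`. -/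
noncomputable def fixedPart : (MvPolynomial (Fin (m + 1)) (𝓞 K))[X] :=
  linearFactors K r m * X ^ (d - r) + C (MvPolynomial.X 0 ^ (2 * (n * d)))

/-- The exponents `(a, β, α)` with `a < d - r`, `β ≤ 2 n (d - r - a)` and `α_k ≤ e`, `1 ≤ k ≤ m`. -/
abbrev Exponents : Type := (Σ a : Fin (d - r), Fin (2 * n * (d - r - a) + 1)) × (Fin m → Fin (e + 1))

/-- `(x - 1) ⋯ (x - r) x ^ a t ^ β u ^ α` for `i = (a, β, α)`. -/
noncomputable def variablePart (i : Exponents d r n e m) : (MvPolynomial (Fin (m + 1)) (𝓞 K))[X] :=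
  linearFactors K r m * (X ^ (i.1.1 : ℕ) * C (MvPolynomial.X 0 ^ (i.1.2 : ℕ) * ∏ k, MvPolynomial.X (Fin.succ k) ^ (i.2 k : ℕ)))

end explicit

/-- **(1)** Let `K` be a number field, `m ≥ 0`, `ω_1, ..., ω_g` generators of the group `𝓞 K` (for example an integral basis),
`F₀` a polynomial in `x`, `t` and `u = (u_1, ..., u_m)` over `𝓞 K` which is monic of odd degree in `x`, and `h_1, ..., h_D`
polynomials of smaller degree in `x`.  Suppose that for all but finitely many prime ideals `v` the `h_i` separate the points outside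
the base locus over the residue field, and that the sum of the quadratic character of `F₀` over the base locus is `r q_v ^ (m + 1)`
up to `O(q_v ^ (m + 1 / 2))` (for example if the base locus consists of `r` sections over which `F₀` is a square).  Then `Holds`, for
every nonzero polynomial `Z` and every `b` (which enters in the fibre at `t = ∞`; the case of projective surfaces is that in which
the coefficients of `x ^ j` have degree at most `2 b (d - j)` in `t`): the sums `∑ w(v) (𝔅_v - (2 + r) q_v) log(q_v)`, `q_v ≤ T`,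
for the fibrations in the surfaces `y² = F₀(t, u, x) + ∑ c_i h_i(t, u, x)` with `c_i = ∑ n_(i,j) ω_j`, `n = c₀ + x_i`, are at most
`T ^ (3 / 2 + δ)` for `Y ≤ T ≤ N ^ κ`, and the Dirichlet polynomials `∑ w(v) (𝔅_v - (2 + r) q_v) log(q_v) q_v ^ (-z)`,
`T₁ < q_v ≤ T₂`, are at most `T₁ ^ (3 / 2 + δ - Re z)` for `Y ≤ T₁ ≤ T₂ ≤ N ^ κ` and `Re z ≥ 3 / 2 + δ`, `|Im z| ≤ T₁ ^ B`, for
all but the proportion `1 / Y ^ A` of the members of all families of vectors of residues with a parameter `X ≥ N`.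

This is the case for the families `y² = (x - 1) ⋯ (x - r) (x ^ (d - r) + G_c(t, u, x)) + t ^ (2 n d)`, where `G_c` is the
polynomial with all the monomials `x ^ a t ^ β u ^ α` with `a < d - r`, `β ≤ 2 n (d - r - a)` and `α_k ≤ e`, for odd `d ≥ r + 2`,
`n ≥ 1` and `e ≥ 1`, which have the sections `(j, t ^ (n d))`, `1 ≤ j ≤ r` (`E` is an enumeration of the monomials).

**(2)** Products: if the residues `y_j(t)`, `t ∈ s_j`, have Fourier coefficients at most `η |s_j|` for each coordinate `j`, then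
the product family of vectors `(y_j(g_j))_j`, `g_j ∈ s_j`, has Fourier coefficients at most `η` times the number of its members.

**(3)** Families of residues modulo primes `p` with Fourier coefficients at most `|s| / K`, `K ≥ 1` arbitrary: the quotients
`j / r` of the integers `0 ≤ j < S` by the primes `r ≤ R`, if `K log ^ 4 p ≤ R < p` and `R ^ 2 ≤ S` (and `p` is large); the cosets
of all subgroups of the multiplicative group of an order of at least `5 p ^ (3/8) K ^ 3`; the residues `a b + g(a) + k(b)`,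
`a ∈ A`, `b ∈ B`, for arbitrary sets with `|A| |B| ≥ p K ^ 2` and arbitrary functions `g` and `k`.

**(4)** Polynomial curves: for `1 ≤ d ≤ D` there is `C` such that for all primes `p` and all integral polynomials `f_j` of
pairwise distinct degrees between `d` and `D` whose leading coefficients are not divisible by `p`, the vectors `(f_j(n))_j`
modulo `p`, `0 ≤ n < x`, have Fourier coefficients at most `x / K` for all `K ≥ 1` with `C K ^ C ≤ p` and
`C K ^ C p ≤ x ^ d`. (So there are such families with only about `p ^ (1 / d)` members.) -/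
theorem result :
    ((∀ (K : Type) [Field K] [NumberField K] (b m D g : ℕ), ∀ ω : Fin g → 𝓞 K, Submodule.span ℤ (Set.range ω) = ⊤ →
      ∀ (F₀ : (MvPolynomial (Fin (m + 1)) (𝓞 K))[X]) (h : Fin D → (MvPolynomial (Fin (m + 1)) (𝓞 K))[X]),
      F₀.Monic → Odd F₀.natDegree → (∀ i, (h i).natDegree < F₀.natDegree) → ∀ (r C₀ : ℝ) (S : Set (HeightOneSpectrum (𝓞 K))), S.Finite →
      (∀ v ∉ S, Separated v h) →
      (∀ v ∉ S, |coverPoints v F₀ h - basePoints v h - r * norm v ^ (m + 1)| ≤ C₀ * (norm v ^ (m + 1) / Real.sqrt (norm v))) →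
      ∀ Z : MvPolynomial (Fin D) (𝓞 K), Z ≠ 0 → Holds b ω F₀ h r Z) ∧
    (∀ (K : Type) [Field K] [NumberField K] (d r n e m D g : ℕ), r + 2 ≤ d → Odd d → 1 ≤ n → 1 ≤ e →
      ∀ ω : Fin g → 𝓞 K, Submodule.span ℤ (Set.range ω) = ⊤ → ∀ E : Fin D ≃ Exponents d r n e m,
      ∀ Z : MvPolynomial (Fin D) (𝓞 K), Z ≠ 0 →
        Holds n ω (fixedPart K d r n m) (fun i => variablePart K d r n e m (E i)) r Z)) ∧
    (∀ (ι : Type) [Fintype ι] [DecidableEq ι] (q : ℕ) [NeZero q] (η : ℝ) (τ : Type) (s : ι → Finset τ) (y : ι → τ → ZMod q),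
      (∀ j, Flat1 q η (s j) (y j)) → Flat q η (Fintype.piFinset s) (fun g j => y j (g j))) ∧
    (∃ P₀ : ℕ, ∀ p : ℕ, P₀ ≤ p → ∀ [Fact p.Prime] (K : ℝ), 1 ≤ K →
      (∀ R S : ℕ, K * Real.log p ^ 4 ≤ R → R < p → R ^ 2 ≤ S →
        Flat1 p (1 / K) (((Finset.Icc 1 R).filter Nat.Prime) ×ˢ Finset.range S)
          (fun z => ((z.2 : ℕ) : ZMod p) * ((z.1 : ℕ) : ZMod p)⁻¹)) ∧
      (∀ (H : Subgroup (ZMod p)ˣ) (s : Finset (ZMod p)ˣ), (∀ u, u ∈ s ↔ u ∈ H) →
        5 * (p : ℝ) ^ (3 / 8 : ℝ) * K ^ 3 ≤ s.card → ∀ x : ZMod p, x ≠ 0 → Flat1 p (1 / K) s (fun u => x * (u : ZMod p))) ∧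
      (∀ (A B : Finset (ZMod p)) (g k : ZMod p → ZMod p), (p : ℝ) * K ^ 2 ≤ A.card * B.card →
        Flat1 p (1 / K) (A ×ˢ B) (fun z => z.1 * z.2 + g z.1 + k z.2))) ∧
    (∀ d D : ℕ, 1 ≤ d → ∃ C : ℕ, ∀ (ι : Type) [Fintype ι] (p : ℕ) [Fact p.Prime] (f : ι → Polynomial ℤ),
      (∀ j, d ≤ (f j).natDegree ∧ (f j).natDegree ≤ D ∧ ¬ (p : ℤ) ∣ (f j).leadingCoeff) →
      Function.Injective (fun j => (f j).natDegree) → ∀ K : ℝ, 1 ≤ K → C * K ^ C ≤ p → ∀ x : ℕ,
      C * K ^ C * p ≤ (x : ℝ) ^ d → Flat p (1 / K) (Finset.range x) (fun n j => (((f j).eval (n : ℤ) : ℤ) : ZMod p))) := by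
  refine ⟨?_, ⟨fun ι _ _ q _ η τ s y h => Pool.Agent.N384.VF.flat_pi q η s y h, ?_,
    fun d D hd => Pool.Agent.N384.VF.flat_poly d D hd⟩⟩
  · refine ⟨fun K _ _ b m D g ω hω F₀ h hF ho hh r C₀ S hS hs hb Z hZ => holds_main b ω hω F₀ h hF ho hh r C₀ S hS hs hb Z hZ,
      fun K _ _ d r n e m D g hd ho hn he ω hω E Z hZ => ?_⟩
    obtain ⟨h2, h3⟩ := Pool.Agent.N647.NG.Fs_deg (𝓞 K) d r n m (by omega)
    refine holds_main n ω hω _ _ h2 ?_ (fun i => ?_) r r _ (Pool.Agent.N647.NG.finite_e r) (fun v _ => ?_) (fun v hv => ?_) Z hZ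
    · rw [h3]
      exact ho
    · rw [h3]
      exact Pool.Agent.N647.NG.hs_deg (𝓞 K) d r n e m (by omega) (E i)
    · exact Pool.Agent.N647.NG.sepV_s d r n e m D E hd hn he v
    · rw [Set.mem_union, not_or] at hv
      exact Pool.Agent.N647.NG.base_s d r n e m D E hd hn v hv.1 hv.2
  · obtain ⟨P₀, h0⟩ := Pool.Agent.N384.MQ.flatK_quot
    exact ⟨P₀, fun p hp _ K hK => ⟨fun R S => h0 p hp K hK R S,
      fun H s hs hc x hx => Pool.Agent.N384.MQ.flatK_coset p H s hs K hK hc x hx,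
      fun A B g k hAB => Pool.Agent.N384.MQ.flatK_prod p A B g k K hK hAB⟩⟩

end Pool.Agent.Results.MP_6090f9_nt.ResidueVectors
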