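import Pool.Agent.N842.TY.Srf

/-!
# The residue formula for almost all surfaces in the projective space which contain given concurrent lines of a plane

Let `K` be a number field and `ω_0, ..., ω_(g-1)` elements of its ring of integers such that `1` is a linear combination of them with
integral coefficients, for instance an integral basis.  Let `G` be a monic polynomial of degree `d` with integral coefficients.
We consider the surfaces `S` of degree `d` in the projective space with the affine equations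

  `x ^ d G(y / x) + ∑ c_α x ^ α_0 y ^ α_1 z ^ α_2 = 0`,   `α_0 + α_1 + α_2 < d`;

the coefficients are `c_α = ∑ m_(α,j) ω_j` with integers `m_(α,j) ≥ 0` which arise from arbitrary integers by changing a few digits.

Let `G` be separable and `d ≥ 3`.  The plane at infinity cuts a smooth surface `S` of the family in `d` lines with a common point,
whose classes are independent, and the Galois group permutes them as the roots of `G`.  So the rank of `NS(S / K)` is at least the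
number `s` of the irreducible factors of `G` over `K`, with equality for a general surface of the family (we do not prove this).

Let `Y` be a smooth projective geometrically irreducible variety of dimension `m ≥ 0` over `K`, and `f : S × Y → Y` the projection.
The average of the traces on the second cohomology of the fibres is `𝔅_v = θ_v b_v`, where `b_v` is the trace on the second cohomology
of `S` and `θ_v = #Y(F_v) / q_v ^ m`, for almost all `v`, and `|θ_v - 1| ≤ C₀ q_v ^ (-1/2)` by the theorem of Lang and Weil; and the rank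
of `NS(X / K(Y))` is the rank of `NS(S / K)`.  For almost all surfaces `S` the theorem gives, for all `Y` (with the given `C₀`),

* the size `T ^ (3/2 + η + δ - Re z)` of the sums over `T < q_v ≤ T'` of the Dirichlet series with the coefficients
  `ψ(v) (𝔅_v - q_v n_v) log(q_v)`, for all `z` with `Re z ≥ 3/2 + η + δ` and `|Im z| ≤ T ^ B`, and for all `ψ` of a given set of
  systems of complex numbers;
* the residue `s` at `2` of the Dirichlet series of the question, as far as it can be seen by the sums over `y < q_v ≤ T'`.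

For `v` of good reduction, `|b_v - q_v n_v| ≤ C q_v` by Deligne's theorem, where `C` depends only on `d`, so that the
truncation below does not change `b_v` if `q_v` is larger than a number which depends only on `d` and `η > 0`.
-/

set_option autoImplicit false

namespace Pool.Agent.Results.MP_6090f9_nt.SurfacesWithLines

open Finset NumberField IsDedekindDomain

/-- The exponents `(α_0, α_1, α_2)` with `α_0 + α_1 + α_2 < d`. -/
abbrev Exponent (d : ℕ) : Type := {α : Fin 3 → ℕ // α 0 + α 1 + α 2 < d}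

/-- The coefficients `c_i = ∑ m_(i,j) ω_j`. -/
def coeff {R : Type} [CommRing R] {g D : ℕ} (ω : Fin g → R) (m : Fin (D * g) → ℕ) (i : Fin D) : R :=
  ∑ j, (m (finProdFinEquiv (i, j)) : R) * ω j

/-- The number of the roots of `G` in the ring `κ`. -/
noncomputable def rootCount (G : Polynomial ℤ) (κ : Type) [CommRing κ] : ℕ :=
  Nat.card {r : κ // G.eval₂ (Int.castRingHom κ) r = 0}

/-- The number of the (monic) irreducible factors of `G` over the field `K`. -/
noncomputable def factorCount (G : Polynomial ℤ) (K : Type) [Field K] : ℕ :=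
  Nat.card {P : Polynomial K // P.Monic ∧ Irreducible P ∧ P ∣ G.map (Int.castRingHom K)}

section
variable (G : Polynomial ℤ) {D : ℕ} (e : Fin D ≃ Exponent G.natDegree)

/-- The value at `P = (x, y, z)` of the polynomial `x ^ d G(y / x) + ∑ u_k x ^ α_0 y ^ α_1 z ^ α_2` with `α = e k`, where `d` is the
degree of `G`, and `e` is an enumeration of the exponents. -/
def value {κ : Type} [CommRing κ] (u : Fin D → κ) (P : Fin 3 → κ) : κ :=
  ∑ j ∈ range (G.natDegree + 1), (G.coeff j : κ) * (P 0 ^ (G.natDegree - j) * P 1 ^ j) + ∑ k, u k * ∏ i, P i ^ (e k).1 i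

/-- The number of the points over the finite field `κ` with `q` elements of the surface: the number of the zeros of the polynomial,
and the number `q n + 1` of the points at infinity, where `n` is the number of the roots of `G` in `κ` (the points at infinity are
the points of `n` lines with a common point). -/
noncomputable def points {κ : Type} [CommRing κ] (u : Fin D → κ) : ℕ :=
  Nat.card {P : Fin 3 → κ // value G e u P = 0} + (Nat.card κ * rootCount G κ + 1)

end

section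
variable {K : Type} [Field K] [NumberField K]

/-- The sum `∑ ψ(v) F(v) log(q_v) q_v ^ (-z)` over the prime ideals with `T < q_v ≤ T'`. -/
noncomputable def series (ψ : HeightOneSpectrum (𝓞 K) → ℂ) (F : HeightOneSpectrum (𝓞 K) → ℝ) (T T' : ℕ) (z : ℂ) : ℂ :=
  ∑ᶠ v ∈ {v : HeightOneSpectrum (𝓞 K) | T < Ideal.absNorm v.asIdeal ∧ Ideal.absNorm v.asIdeal ≤ T'},
    ψ v * ((F v * Real.log (Ideal.absNorm v.asIdeal) : ℝ) : ℂ) * (Ideal.absNorm v.asIdeal : ℂ) ^ (-z)

variable {g : ℕ} (ω : Fin g → 𝓞 K) (G : Polynomial ℤ) {D : ℕ} (e : Fin D ≃ Exponent G.natDegree)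

/-- The trace `b_v = #S(F_v) - q_v ^ 2 - 1` of the reduction of the surface modulo `v`. -/
noncomputable def trace (m : Fin (D * g) → ℕ) (v : HeightOneSpectrum (𝓞 K)) : ℝ :=
  points G e (fun k => Ideal.Quotient.mk v.asIdeal (coeff ω m k)) - (Ideal.absNorm v.asIdeal : ℝ) ^ 2 - 1

/-- The number `q_v n_v`, where `n_v` is the number of the roots of `G` modulo `v`. -/
noncomputable def centre (v : HeightOneSpectrum (𝓞 K)) : ℝ := (Ideal.absNorm v.asIdeal : ℝ) * rootCount G (𝓞 K ⧸ v.asIdeal)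

open Classical in
/-- `b_v` if `|b_v - q_v n_v| ≤ q_v ^ (1 + η)`, and `q_v n_v` otherwise. -/
noncomputable def truncated (η : ℝ) (m : Fin (D * g) → ℕ) (v : HeightOneSpectrum (𝓞 K)) : ℝ :=
  if |trace ω G e m v - centre G v| ≤ (Ideal.absNorm v.asIdeal : ℝ) ^ (1 + η) then trace ω G e m v else centre G v

end

/-- The digit number `i` (counted from the right, beginning with `0`) of `n` in base `b`. -/
def digit (b i n : ℕ) : ℕ := n / b ^ i % b

/-- The number which arises from the number `N` with at most `L` digits in base `b`, if for every `i ∈ S`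
the digit number `i` is replaced by `f i`. -/
def change (b L N : ℕ) (f : ℕ → ℕ) (S : Finset ℕ) : ℕ :=
  ∑ i ∈ range L, (if i ∈ S then f i else digit b i N) * b ^ i

open Classical in
/-- The number of the choices of `r j` of `L j` positions for all `j` for which the tuple of the numbers obtained by
changing the digits of the `N j` at the chosen positions (according to `f j`) does not have the property `P`. -/
noncomputable def exceptions {d : ℕ} (b : ℕ) (L r N : Fin d → ℕ) (f : Fin d → ℕ → ℕ) (P : (Fin d → ℕ) → Prop) : ℕ :=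
  ((Fintype.piFinset (fun j => powersetCard (r j) (range (L j)))).filter
    (fun S => ¬ P (fun j => change b (L j) (N j) (f j) (S j)))).card

lemma exc_eq {d : ℕ} (b : ℕ) (L r N : Fin d → ℕ) (f : Fin d → ℕ → ℕ) (P : (Fin d → ℕ) → Prop) :
    exceptions b L r N f P = Pool.Agent.Y57.FD.exceptions b L r N f P := rfl

section
variable {K : Type} [Field K] [NumberField K] {g : ℕ} (ω : Fin g → 𝓞 K) (G : Polynomial ℤ) {D : ℕ} (e : Fin D ≃ Exponent G.natDegree)

open Classical in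
lemma series_eq (ψ : HeightOneSpectrum (𝓞 K) → ℂ) (F : HeightOneSpectrum (𝓞 K) → ℝ) (T T' : ℕ) (z : ℂ) :
    series ψ F T T' z = ∑ v ∈ Pool.Agent.N842.HS.VT K T' \ Pool.Agent.N842.HS.VT K T,
      ψ v * ((F v * Real.log (Ideal.absNorm v.asIdeal) : ℝ) : ℂ) * (Ideal.absNorm v.asIdeal : ℂ) ^ (-z) := by
  have h2 : {v : HeightOneSpectrum (𝓞 K) | T < Ideal.absNorm v.asIdeal ∧ Ideal.absNorm v.asIdeal ≤ T'} =
      ((Pool.Agent.N842.HS.VT K T' \ Pool.Agent.N842.HS.VT K T : Finset (HeightOneSpectrum (𝓞 K))) : Set (HeightOneSpectrum (𝓞 K))) := by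
    ext v
    rw [mem_coe, mem_sdiff, Pool.Agent.N842.HS.mem_VT, Pool.Agent.N842.HS.mem_VT, Set.mem_ofPred_eq]
    omega
  unfold series
  rw [h2, finsum_mem_coe_finset]

lemma norm_pos (v : HeightOneSpectrum (𝓞 K)) : (1 : ℝ) ≤ (Ideal.absNorm v.asIdeal : ℕ) := by
  have hq0 : Ideal.absNorm v.asIdeal ≠ 0 := by
    rw [Ne, Ideal.absNorm_eq_zero_iff]
    exact v.ne_bot
  exact_mod_cast Nat.one_le_iff_ne_zero.2 hq0

lemma truncated_eq (η : ℝ) (m : Fin (D * g) → ℕ) (v : HeightOneSpectrum (𝓞 K)) :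
    truncated ω G e η m v - centre G v =
      (Ideal.absNorm v.asIdeal : ℝ) * Pool.Agent.N842.TY.Fs (d := G.natDegree) e G η v (Pool.Agent.N842.HS.cf ω m) := by
  classical
  have hq1 := norm_pos v
  have hq0 : (0 : ℝ) < (Ideal.absNorm v.asIdeal : ℕ) := by linarith
  have h0 : (Nat.card (Pool.Agent.N842.HS.Res v) : ℝ) = (Ideal.absNorm v.asIdeal : ℕ) := by
    rw [Pool.Agent.N842.HS.card_Res]
  have h1 : Pool.Agent.N842.TY.Fs (d := G.natDegree) e G η v (Pool.Agent.N842.HS.cf ω m) =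
      Pool.Agent.N842.TX.tc ((Nat.card (Pool.Agent.N842.HS.Res v) : ℝ) ^ η)
        (((points G e (fun k => Ideal.Quotient.mk v.asIdeal (coeff ω m k)) : ℝ) - (Nat.card (Pool.Agent.N842.HS.Res v) : ℝ) ^ 2 - 1) /
          Nat.card (Pool.Agent.N842.HS.Res v) - rootCount G (𝓞 K ⧸ v.asIdeal)) := rfl
  have h2 : ((points G e (fun k => Ideal.Quotient.mk v.asIdeal (coeff ω m k)) : ℝ) - (Nat.card (Pool.Agent.N842.HS.Res v) : ℝ) ^ 2 - 1) /
          Nat.card (Pool.Agent.N842.HS.Res v) - rootCount G (𝓞 K ⧸ v.asIdeal) = (trace ω G e m v - centre G v) / (Ideal.absNorm v.asIdeal : ℕ) := by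
    rw [h0]
    unfold trace centre
    field_simp
  rw [h1, h2, h0]
  unfold truncated Pool.Agent.N842.TX.tc
  have h3 : |(trace ω G e m v - centre G v) / (Ideal.absNorm v.asIdeal : ℕ)| ≤ ((Ideal.absNorm v.asIdeal : ℕ) : ℝ) ^ η ↔
      |trace ω G e m v - centre G v| ≤ ((Ideal.absNorm v.asIdeal : ℕ) : ℝ) ^ (1 + η) := by
    rw [abs_div, abs_of_pos hq0, div_le_iff₀ hq0, Real.rpow_add hq0, Real.rpow_one, mul_comm]
  by_cases h : |trace ω G e m v - centre G v| ≤ ((Ideal.absNorm v.asIdeal : ℕ) : ℝ) ^ (1 + η)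
  · rw [if_pos h, if_pos (h3.2 h)]
    field_simp
  · rw [if_neg h, if_neg (fun h' => h (h3.1 h')), sub_self, mul_zero]

/-- **The residue formula for almost all surfaces with the given lines.**  Let `G` be monic of degree `d` with `s` irreducible factors
over `K`, `h` even with `2 ≤ h ≤ d`.  Take arbitrary numbers `N_j < β ^ (L_j)`, and change the digits at `r_j` of the `L_j` places of
each.  Then for all but a proportion `y ^ (-A)` of the choices of the places, for all systems `θ` with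
`|θ_v - 1| ≤ C₀ q_v ^ (-1/2)` and for all `T`, `T'` with `y ≤ T ≤ T' ≤ exp(c r_j)`,

* `|∑_(T < q_v ≤ T') ψ(v) (θ_v b'_v - q_v n_v) log(q_v) q_v ^ (-z)| ≤ T ^ (3/2 + 1/(2h) + δ - Re z)` for all `ψ` of a set with at
  most `y ^ B` elements, and for all complex `z` with `Re z ≥ 3/2 + 1/(2h) + δ` and `|Im z| ≤ T ^ B`;
* `|(σ - 2) ∑_(y < q_v ≤ T') θ_v b'_v log(q_v) q_v ^ (-σ) - s| ≤ ε` for all `σ` with `M / log T' ≤ σ - 2 ≤ 1 / (M log y)`. -/
theorem result (hG : G.Monic) (hω : (1 : 𝓞 K) ∈ Submodule.span ℤ (Set.range ω)) (h : ℕ) (hh : 2 ≤ h) (heven : Even h)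
    (hd : h ≤ G.natDegree) (β : ℕ) (hβ : 2 ≤ β) (C₀ : ℝ) (hC₀ : 0 ≤ C₀) (δ ε : ℝ) (hδ : 0 < δ) (hε : 0 < ε) (A B : ℕ) :
    ∃ M : ℝ, 1 ≤ M ∧ ∃ c : ℝ, 0 < c ∧ ∃ y₀ : ℕ, ∀ (L r : Fin (D * g) → ℕ) (y : ℕ), (∀ i, 2 * r i ≤ L i) → y₀ ≤ y →
    ∀ N : Fin (D * g) → ℕ, (∀ i, N i < β ^ L i) →
    ∀ f : Fin (D * g) → ℕ → ℕ, (∀ i j, f i j < β ∧ f i j ≠ digit β j (N i)) →
    ∀ Ψ : Set (HeightOneSpectrum (𝓞 K) → ℂ), Ψ.Finite → Ψ.ncard ≤ y ^ B → (∀ ψ ∈ Ψ, ∀ v, ‖ψ v‖ ≤ 1) →
    (exceptions β L r N f (fun m => ∀ θ : HeightOneSpectrum (𝓞 K) → ℝ,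
      (∀ v, |θ v - 1| ≤ C₀ * (Ideal.absNorm v.asIdeal : ℝ) ^ (-(1 / 2) : ℝ)) →
      ∀ T T' : ℕ, y ≤ T → T ≤ T' → (∀ i, (T' : ℝ) ≤ Real.exp (c * r i)) →
      (∀ ψ ∈ Ψ, ∀ z : ℂ, 3 / 2 + 1 / (2 * (h : ℝ)) + δ ≤ z.re → |z.im| ≤ (T : ℝ) ^ B →
        ‖series ψ (fun v => θ v * truncated ω G e (1 / (2 * (h : ℝ))) m v - centre G v) T T' z‖ ≤ (T : ℝ) ^ (3 / 2 + 1 / (2 * (h : ℝ)) + δ - z.re)) ∧
      (∀ σ : ℝ, M / Real.log T' ≤ σ - 2 → σ - 2 ≤ 1 / (M * Real.log y) →
        ‖((σ : ℂ) - 2) * series (fun _ => 1) (fun v => θ v * truncated ω G e (1 / (2 * (h : ℝ))) m v) y T' σ - (factorCount G K : ℂ)‖ ≤ ε)) : ℝ) ≤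
        1 / (y : ℝ) ^ A * ∏ i, ((L i).choose (r i) : ℝ) := by
  classical
  obtain ⟨hη0, hη1⟩ := Pool.Agent.N842.TY.eta_bounds hh
  obtain ⟨M, hM, c, hc, y₀, hmain⟩ := Pool.Agent.N842.TY.edge (K := K) (Pool.Agent.N842.TY.srfSys (d := G.natDegree) e G hh heven hd)
    (Pool.Agent.N842.TY.one_le_srf e hh hd) hη0 hη1 (fun v => (Pool.Agent.N842.TX.ni G (Pool.Agent.N842.HS.Res v) : ℝ))
    _ (Pool.Agent.N842.TX.roots_tendsto K G hG) (C₀ * (G.natDegree + 1)) (by positivity) β g ω hω hβ δ ε hδ hε A B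
  refine ⟨M, hM, c, hc, y₀, fun L r y hrL hy N hN f hf Ψ hΨ hΨ2 hΨ1 => ?_⟩
  rw [exc_eq]
  refine hmain L r y hrL hy N hN f hf Ψ hΨ hΨ2 hΨ1 _ fun m hm θ hθ T T' hyT hTT hTr => ?_
  obtain ⟨F, hFd⟩ : ∃ F : HeightOneSpectrum (𝓞 K) → ℝ, F = fun v => Pool.Agent.N842.TY.Fs (d := G.natDegree) e G (1 / (2 * (h : ℝ))) v (Pool.Agent.N842.HS.cf ω m) := ⟨_, rfl⟩
  have hF : ∀ v, (Pool.Agent.N842.TY.srfSys (K := K) (d := G.natDegree) e G hh heven hd).F v (Pool.Agent.N842.HS.cf ω m) = F v := by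
    intro v
    rw [hFd]
    rfl
  have hFt : ∀ v, truncated ω G e (1 / (2 * (h : ℝ))) m v = (Ideal.absNorm v.asIdeal : ℝ) * (rootCount G (𝓞 K ⧸ v.asIdeal) + F v) := by
    intro v
    have h1 := truncated_eq ω G e (1 / (2 * (h : ℝ))) m v
    rw [hFd]
    have h2 : centre G v = (Ideal.absNorm v.asIdeal : ℝ) * rootCount G (𝓞 K ⧸ v.asIdeal) := rfl
    rw [h2] at h1
    linarith
  have hFle : ∀ v, |F v| ≤ (Ideal.absNorm v.asIdeal : ℝ) ^ (1 / (2 * (h : ℝ))) := by
    intro v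
    rw [← hF]
    exact (Pool.Agent.N842.TY.srfSys (K := K) (d := G.natDegree) e G hh heven hd).F_le v _
  obtain ⟨ξ, hξd⟩ : ∃ ξ : HeightOneSpectrum (𝓞 K) → ℝ, ξ = fun v => (θ v - 1) * (rootCount G (𝓞 K ⧸ v.asIdeal) + F v) := ⟨_, rfl⟩
  have hξ : ∀ v, |ξ v| ≤ C₀ * (G.natDegree + 1) * (Ideal.absNorm v.asIdeal : ℝ) ^ (-(1 / 2 - 1 / (2 * (h : ℝ)))) := by
    intro v
    have hq1 := norm_pos v
    have hq0 : (0 : ℝ) < (Ideal.absNorm v.asIdeal : ℕ) := by linarith
    have hfin : Finite (Pool.Agent.N842.HS.Res v) := by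
      apply Nat.finite_of_card_ne_zero
      rw [Pool.Agent.N842.HS.card_Res]
      intro h0
      rw [h0] at hq0
      norm_num at hq0
    have e1 : (rootCount G (𝓞 K ⧸ v.asIdeal) : ℝ) ≤ G.natDegree := by
      have e2 : rootCount G (𝓞 K ⧸ v.asIdeal) = Pool.Agent.N842.TX.ni G (Pool.Agent.N842.HS.Res v) := rfl
      rw [e2]
      exact_mod_cast Pool.Agent.N842.TX.ni_le G hG (Pool.Agent.N842.HS.Res v)
    have e2 : 1 ≤ ((Ideal.absNorm v.asIdeal : ℕ) : ℝ) ^ (1 / (2 * (h : ℝ))) := Real.one_le_rpow hq1 hη0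
    have e3 : |(rootCount G (𝓞 K ⧸ v.asIdeal) : ℝ) + F v| ≤ (G.natDegree + 1) * ((Ideal.absNorm v.asIdeal : ℕ) : ℝ) ^ (1 / (2 * (h : ℝ))) := by
      refine (abs_add_le _ _).trans ?_
      rw [abs_of_nonneg (Nat.cast_nonneg _)]
      have e4 := hFle v
      have e5 : (G.natDegree : ℝ) ≤ G.natDegree * ((Ideal.absNorm v.asIdeal : ℕ) : ℝ) ^ (1 / (2 * (h : ℝ))) :=
        le_mul_of_one_le_right (Nat.cast_nonneg _) e2
      linarith
    have e6 : ((Ideal.absNorm v.asIdeal : ℕ) : ℝ) ^ (-(1 / 2 - 1 / (2 * (h : ℝ)))) =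
        ((Ideal.absNorm v.asIdeal : ℕ) : ℝ) ^ (-(1 / 2) : ℝ) * ((Ideal.absNorm v.asIdeal : ℕ) : ℝ) ^ (1 / (2 * (h : ℝ))) := by
      rw [← Real.rpow_add hq0]
      congr 1
      ring
    rw [hξd, e6]
    beta_reduce
    rw [abs_mul]
    calc |θ v - 1| * |(rootCount G (𝓞 K ⧸ v.asIdeal) : ℝ) + F v| ≤ (C₀ * ((Ideal.absNorm v.asIdeal : ℕ) : ℝ) ^ (-(1 / 2) : ℝ)) *
        ((G.natDegree + 1) * ((Ideal.absNorm v.asIdeal : ℕ) : ℝ) ^ (1 / (2 * (h : ℝ)))) := mul_le_mul (hθ v) e3 (abs_nonneg _) (by positivity)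
      _ = _ := by ring
  obtain ⟨h1, h2⟩ := hm ξ hξ T' hTr
  -- the product
  have hprod : ∀ v, θ v * truncated ω G e (1 / (2 * (h : ℝ))) m v = (Ideal.absNorm v.asIdeal : ℝ) * (rootCount G (𝓞 K ⧸ v.asIdeal) + (F v + ξ v)) := by
    intro v
    rw [hFt, hξd]
    ring
  constructor
  · intro ψ hψ z hz1 hz2
    have h3 := h1 ψ hψ T hyT hTT (z - 1) (by rw [Complex.sub_re, Complex.one_re]; linarith) (by rw [Complex.sub_im, Complex.one_im, sub_zero]; exact hz2)
    have h4 : 1 / 2 + 1 / (2 * (h : ℝ)) + δ - (z - 1).re = 3 / 2 + 1 / (2 * (h : ℝ)) + δ - z.re := by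
      rw [Complex.sub_re, Complex.one_re]
      ring
    rw [h4] at h3
    refine le_trans (le_of_eq ?_) h3
    rw [series_eq]
    congr 1
    refine sum_congr rfl fun v _ => ?_
    have hq0 : ((Ideal.absNorm v.asIdeal : ℕ) : ℂ) ≠ 0 := by
      have := norm_pos v
      intro h0
      have h00 : (Ideal.absNorm v.asIdeal) = 0 := by exact_mod_cast h0
      rw [h00] at this
      norm_num at this
    have h5 : ((Ideal.absNorm v.asIdeal : ℕ) : ℂ) ^ (-(z - 1)) = (Ideal.absNorm v.asIdeal : ℂ) * ((Ideal.absNorm v.asIdeal : ℕ) : ℂ) ^ (-z) := by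
      rw [show -(z - 1) = 1 + -z by ring, Complex.cpow_add _ _ hq0, Complex.cpow_one]
    have h6 : θ v * truncated ω G e (1 / (2 * (h : ℝ))) m v - centre G v = (Ideal.absNorm v.asIdeal : ℝ) * (F v + ξ v) := by
      rw [hprod]
      unfold centre
      ring
    rw [hF, h5, h6]
    push_cast
    ring
  · intro σ hσ1 hσ2
    have h3 := h2 (hyT.trans hTT) (σ - 2) hσ1 hσ2
    have h4 : ((σ : ℂ) - 2) * series (fun _ => 1) (fun v => θ v * truncated ω G e (1 / (2 * (h : ℝ))) m v) y T' σ - (factorCount G K : ℂ) =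
        (((σ - 2) * ∑ v ∈ Pool.Agent.N842.HS.VT K T' \ Pool.Agent.N842.HS.VT K y,
          (((Pool.Agent.N842.TX.ni G (Pool.Agent.N842.HS.Res v) : ℝ) +
            ((Pool.Agent.N842.TY.srfSys (K := K) (d := G.natDegree) e G hh heven hd).F v (Pool.Agent.N842.HS.cf ω m) + ξ v)) *
            Real.log (Ideal.absNorm v.asIdeal)) * (Ideal.absNorm v.asIdeal : ℝ) ^ (-(1 + (σ - 2))) - (Pool.Agent.N842.TX.nf K G : ℝ) : ℝ) : ℂ) := by
      rw [series_eq, Complex.ofReal_sub, Complex.ofReal_mul, Complex.ofReal_sum]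
      have h5 : ∀ v : HeightOneSpectrum (𝓞 K), (1 : ℂ) * (((θ v * truncated ω G e (1 / (2 * (h : ℝ))) m v) * Real.log (Ideal.absNorm v.asIdeal) : ℝ) : ℂ) *
          (Ideal.absNorm v.asIdeal : ℂ) ^ (-(σ : ℂ)) =
          ((((Pool.Agent.N842.TX.ni G (Pool.Agent.N842.HS.Res v) : ℝ) +
            ((Pool.Agent.N842.TY.srfSys (K := K) (d := G.natDegree) e G hh heven hd).F v (Pool.Agent.N842.HS.cf ω m) + ξ v)) *
            Real.log (Ideal.absNorm v.asIdeal)) * (Ideal.absNorm v.asIdeal : ℝ) ^ (-(1 + (σ - 2))) : ℝ) := by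
        intro v
        have hq1 := norm_pos v
        have hq0 : (0 : ℝ) < (Ideal.absNorm v.asIdeal : ℕ) := by linarith
        rw [hF]
        have h6 : (Pool.Agent.N842.TX.ni G (Pool.Agent.N842.HS.Res v) : ℝ) = rootCount G (𝓞 K ⧸ v.asIdeal) := rfl
        have h7 : (Ideal.absNorm v.asIdeal : ℂ) ^ (-(σ : ℂ)) = (((Ideal.absNorm v.asIdeal : ℝ) ^ (-σ) : ℝ) : ℂ) := by
          rw [Complex.ofReal_cpow (Nat.cast_nonneg _)]
          push_cast
          rfl
        have h8 : ((Ideal.absNorm v.asIdeal : ℕ) : ℝ) ^ (-(1 + (σ - 2))) = (Ideal.absNorm v.asIdeal : ℝ) * ((Ideal.absNorm v.asIdeal : ℕ) : ℝ) ^ (-σ) := by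
          rw [show -(1 + (σ - 2)) = 1 + -σ by ring, Real.rpow_add hq0, Real.rpow_one]
        rw [h6, h7, h8, one_mul, ← Complex.ofReal_mul, hprod]
        congr 1
        ring
      rw [sum_congr rfl fun v _ => h5 v]
      have h8 : (factorCount G K : ℕ) = Pool.Agent.N842.TX.nf K G := rfl
      rw [h8]
      push_cast
      ring
    rw [h4, Complex.norm_real, Real.norm_eq_abs]
    exact h3

end

end Pool.Agent.Results.MP_6090f9_nt.SurfacesWithLines
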