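import Pool.Agent.N647.NG.SurfT
import Pool.Agent.N647.NG.Expl2

/-!
# The residue formula for Frobenius averages on `H²` for almost all members of thin sequences of fibrations in surfaces

Let `K` be a number field, `F₀` and `h_1, ..., h_D` polynomials in `t`, `u = (u_1, ..., u_m)`, `m ≥ 0`, and `x` over its ring of
integers, `F₀` monic of odd degree `d` in `x`, and the `h_i` of smaller degree in `x`.  We study the fibrations over the affine space
with the coordinates `u` (a point, if `m = 0`) whose fibres are the surfaces `y² = F_c(t, u, x)`, `F_c = F₀ + ∑ c_i h_i`; they are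
fibred over the projective line with the coordinate `t`.  If the degree in `t` of the coefficient of `x ^ j` is at most `2 n (d - j)`,
these surfaces are projective: near `t = ∞` one puts `t = 1 / t'`, `x = x' / t' ^ (2 n)`, `y = y' / t' ^ (n d)`, and on every fibre of
the surface over the line there is one more point, a section.  If they are smooth, then `H¹ = H³ = 0`, and the trace of the
Frobenius on `H²` of the surface over a point `u` over the residue field with `q_v` elements is the number of its points minus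
`1 + q_v²`.  The average of these traces over all `u` is the number `𝔅_v` of the problem.  For `d = 3` these are elliptic surfaces
(rational for `n = 1`, K3 for `n = 2`).

According to the problem the series `∑ 𝔅_v log(q_v) q_v ^ (-z)` has the residue `rank NS(X/K(u)) = 2 + rank J(K(u, t))` at `z = 2`
(Shioda and Tate; `J` is the Jacobian of the generic fibre over the line), in particular for `m = 0` (the conjecture of Tate for
surfaces).  If the base locus of the `h_i` consists of `r` sections over which `F₀` is a square, then the members have `r` explicit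
points over `K(u, t)`.

The coefficients are `c_i = ∑ ⌊P_(i,j)(s)⌋ ω_j` where the `P_(i,j)` are generalised polynomials and `s` is an integer, or a prime:
there is one parameter `s` only.  We show that for very few exceptions `s` the sums `∑ w(v) (𝔅_v - (2 + r) q_v) log(q_v)` over the
prime ideals (of all degrees) with `q_v ≤ T` are at most `T ^ (3 / 2 + δ)`, and the Dirichlet polynomials
`∑ w(v) (𝔅_v - (2 + r) q_v) log(q_v) q_v ^ (-z)` over the prime ideals with `T₁ < q_v ≤ T₂` are at most `T₁ ^ (3 / 2 + δ - Re z)`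
in the half plane `Re z ≥ 3 / 2 + δ` for `|Im z| ≤ T₁ ^ B`, with arbitrary weights (for example characters) from a set of at most
`y ^ B` weights, without an arbitrary set of bad primes, for all `T`, `T₁`, `T₂` between `y` and `N ^ κ`: as if the series and all
its twists differed from those of `(2 + r) q_v` by a function which is holomorphic and of subpolynomial growth for `Re z > 3 / 2`.

Method: the numbers of the points of the surfaces and of their fibres at infinity; for the fibration over the space with the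
coordinates `(t, u)` in curves: by exponential sums the vectors of the integer parts are uniformly distributed modulo all moduli up
to a power of `N`, over the integers and over the primes (`Pool.Agent.N666.TM.fl_well`); high moments of sums of local functions
which are as large as `√q_v` (the bound of Weil, `Pool.Agent.H341R2.Sharp`) but have bounded second moments
(`Pool.Agent.N647.NG`, and the hand-ins `Pool.Agent.Results.MP_1a0ddd_nt.ThinSequences` and
`Pool.Agent.Results.MP_3d3918_nt.ThinSequences` on `H¹`).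
-/

set_option autoImplicit false

namespace Pool.Agent.Results.MP_6090f9_nt.ThinSequences

open Finset Polynomial NumberField IsDedekindDomain

section
variable {k : Type} [CommRing k]

/-- The polynomial of the fibre at `t = ∞` of the surface `y² = P(t, x)`: the coefficient of `X ^ j` is the coefficient of
`t ^ (2 n (d - j)) x ^ j` in `P`, where `d` is the degree of `P` in `x`. -/
noncomputable def atInfinity (n : ℕ) (P : k[X][X]) : k[X] :=
  ∑ j ∈ range (P.natDegree + 1), C ((P.coeff j).coeff (2 * n * (P.natDegree - j))) * X ^ j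

/-- The number of the points of the surface `y² = P(t, x)`: the points with `t ≠ ∞`, `x ≠ ∞`, the points with `t = ∞`, `x ≠ ∞`, and the
`q + 1` points of the section at `x = ∞`. -/
noncomputable def points (n : ℕ) (P : k[X][X]) : ℕ :=
  Nat.card {Q : k × k × k // Q.2.2 ^ 2 = (P.map (evalRingHom Q.1)).eval Q.2.1} +
    Nat.card {Q : k × k // Q.2 ^ 2 = (atInfinity n P).eval Q.1} + (Nat.card k + 1)

/-- The trace of the Frobenius on `H²` of this surface, if it is smooth: the number of its points minus `1 + q²`. -/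
noncomputable def traceTwo (n : ℕ) (P : k[X][X]) : ℝ := (points n P : ℝ) - 1 - (Nat.card k : ℝ) ^ 2

end

section
variable {K : Type} [Field K] [NumberField K] {m D g : ℕ}

/-- The coefficients `c_i = ∑ n_(i,j) ω_j`. -/
def coeff (ω : Fin g → 𝓞 K) (n : Fin (D * g) → ℕ) (i : Fin D) : 𝓞 K := ∑ j, (n (finProdFinEquiv (i, j)) : 𝓞 K) * ω j

/-- The polynomial `F_c = F₀ + ∑ c_i h_i`, in the variable `x` over the ring of the polynomials in the `m + 1` variables `t` (the
variable number `0`) and `u_1, ..., u_m` (the variables `1, ..., m`). -/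
noncomputable def member (F₀ : (MvPolynomial (Fin (m + 1)) (𝓞 K))[X]) (h : Fin D → (MvPolynomial (Fin (m + 1)) (𝓞 K))[X])
    (c : Fin D → 𝓞 K) : (MvPolynomial (Fin (m + 1)) (𝓞 K))[X] := F₀ + ∑ i, C (MvPolynomial.C (c i)) * h i

/-- The residue field of the prime ideal `v`. -/
abbrev Residue (v : HeightOneSpectrum (𝓞 K)) : Type := 𝓞 K ⧸ v.asIdeal

/-- The absolute norm `q_v`. -/
noncomputable def norm (v : HeightOneSpectrum (𝓞 K)) : ℝ := Ideal.absNorm v.asIdeal

/-- The value `F(t, u, x)` at the point `P = ((t, u), x)` over the residue field of `v`. -/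
noncomputable def val (v : HeightOneSpectrum (𝓞 K)) (F : (MvPolynomial (Fin (m + 1)) (𝓞 K))[X])
    (P : (Fin (m + 1) → Residue v) × Residue v) : Residue v :=
  (F.map (MvPolynomial.eval₂Hom (Ideal.Quotient.mk v.asIdeal) P.1)).eval P.2

/-- The polynomial `F(t, u, x)` in `t` and `x` over the residue field of `v`, for a point `u` over the residue field: the surface
over the point `u` is `y² = F(t, u, x)`. -/
noncomputable def surface (v : HeightOneSpectrum (𝓞 K)) (F : (MvPolynomial (Fin (m + 1)) (𝓞 K))[X]) (u : Fin m → Residue v) :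
    (Residue v)[X][X] :=
  F.map (MvPolynomial.eval₂Hom ((C : Residue v →+* (Residue v)[X]).comp (Ideal.Quotient.mk v.asIdeal)) (Fin.cons X fun i => C (u i)))

/-- The average `𝔅_v` of the traces on `H²` of the surfaces over all points `u` of the affine space over the residue field. -/
noncomputable def average (n : ℕ) (F : (MvPolynomial (Fin (m + 1)) (𝓞 K))[X]) (v : HeightOneSpectrum (𝓞 K)) : ℝ :=
  (∑ᶠ u : Fin m → Residue v, traceTwo n (surface v F u)) / norm v ^ m

/-- The sum `∑ w(v) (𝔅_v - (2 + r) q_v) log(q_v)` over the prime ideals `v ∉ R` with `q_v ≤ T`. -/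
noncomputable def partialSum (n : ℕ) (F : (MvPolynomial (Fin (m + 1)) (𝓞 K))[X]) (r : ℝ) (w : HeightOneSpectrum (𝓞 K) → ℝ) (T : ℕ)
    (R : Set (HeightOneSpectrum (𝓞 K))) : ℝ :=
  ∑ᶠ v ∈ {v : HeightOneSpectrum (𝓞 K) | Ideal.absNorm v.asIdeal ≤ T ∧ v ∉ R},
    w v * ((average n F v - (2 + r) * norm v) * Real.log (norm v))

/-- The Dirichlet polynomial `∑ w(v) (𝔅_v - (2 + r) q_v) log(q_v) q_v ^ (-z)` over the prime ideals `v ∉ R` with
`T₁ < q_v ≤ T₂`. -/
noncomputable def dirichlet (n : ℕ) (F : (MvPolynomial (Fin (m + 1)) (𝓞 K))[X]) (r : ℝ) (w : HeightOneSpectrum (𝓞 K) → ℝ) (T₁ T₂ : ℕ)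
    (R : Set (HeightOneSpectrum (𝓞 K))) (z : ℂ) : ℂ :=
  ∑ᶠ v ∈ {v : HeightOneSpectrum (𝓞 K) | T₁ < Ideal.absNorm v.asIdeal ∧ Ideal.absNorm v.asIdeal ≤ T₂ ∧ v ∉ R},
    ((w v * ((average n F v - (2 + r) * norm v) * Real.log (norm v)) : ℝ) : ℂ) * (norm v : ℂ) ^ (-z)

/-- The values `h_i(P)` at a point `P` over the residue field outside the base locus are not a multiple of the values `h_i(Q)` at
another point `Q`. -/
def Separated (v : HeightOneSpectrum (𝓞 K)) (h : Fin D → (MvPolynomial (Fin (m + 1)) (𝓞 K))[X]) : Prop :=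
  ∀ P Q : (Fin (m + 1) → Residue v) × Residue v, P ≠ Q → (∃ i, val v (h i) P ≠ 0) →
    ¬ ∃ l : Residue v, ∀ i, val v (h i) P = l * val v (h i) Q

/-- The number of the points `P` over the residue field in the base locus (the common zeros of the `h_i`). -/
noncomputable def basePoints (v : HeightOneSpectrum (𝓞 K)) (h : Fin D → (MvPolynomial (Fin (m + 1)) (𝓞 K))[X]) : ℝ :=
  Nat.card {P : (Fin (m + 1) → Residue v) × Residue v // ∀ i, val v (h i) P = 0}

/-- The number of the points `(P, y)` over the residue field with `P` in the base locus and `y² = F₀(P)`. -/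
noncomputable def coverPoints (v : HeightOneSpectrum (𝓞 K)) (F₀ : (MvPolynomial (Fin (m + 1)) (𝓞 K))[X])
    (h : Fin D → (MvPolynomial (Fin (m + 1)) (𝓞 K))[X]) : ℝ :=
  Nat.card {P : ((Fin (m + 1) → Residue v) × Residue v) × Residue v // (∀ i, val v (h i) P.1 = 0) ∧ P.2 ^ 2 = val v F₀ P.1}

end

/-- `c` is the largest exponent of the generalised polynomial `∑ a x s ^ x`, `x ∈ G`; it is positive and not an integer and has a
positive coefficient. -/
def Admissible (G : Finset ℝ) (a : ℝ → ℝ) (c : ℝ) : Prop :=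
  c ∈ G ∧ (∀ x ∈ G, x ≤ c) ∧ 0 < c ∧ (∀ n : ℕ, c ≠ n) ∧ 0 < a c

/-- The integer part `⌊P_j(s)⌋` of the value of the generalised polynomial number `j` (and `0` if the value is negative, which is
the case for finitely many `s` only). -/
noncomputable def value {d : ℕ} (G : Fin d → Finset ℝ) (a : Fin d → ℝ → ℝ) (s : ℕ) (j : Fin d) : ℕ :=
  ⌊∑ x ∈ G j, a j x * (s : ℝ) ^ x⌋₊

section
variable {K : Type} [Field K] [NumberField K] {m D g : ℕ}

/-- For all weights `w ∈ W` and all sets `R` of prime ideals which divide `Z(c)`: the sum of `w(v) (𝔅_v - (2 + r) q_v) log(q_v)`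
over the prime ideals `v ∉ R` with `q_v ≤ T` is at most `T ^ (3 / 2 + δ)` in absolute value for `y ≤ T ≤ N ^ κ`, and the Dirichlet
polynomial over the `v ∉ R` with `T₁ < q_v ≤ T₂` is at most `T₁ ^ (3 / 2 + δ - Re z)` for `y ≤ T₁ ≤ T₂ ≤ N ^ κ`,
`Re z ≥ 3 / 2 + δ` and `|Im z| ≤ T₁ ^ B`. -/
def Good (b : ℕ) (ω : Fin g → 𝓞 K) (F₀ : (MvPolynomial (Fin (m + 1)) (𝓞 K))[X]) (h : Fin D → (MvPolynomial (Fin (m + 1)) (𝓞 K))[X])
    (r : ℝ) (Z : MvPolynomial (Fin D) (𝓞 K)) (δ κ : ℝ) (B y N : ℕ) (W : Set (HeightOneSpectrum (𝓞 K) → ℝ)) (n : Fin (D * g) → ℕ) :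
    Prop :=
  ∀ w ∈ W, ∀ R : Set (HeightOneSpectrum (𝓞 K)), (∀ v ∈ R, MvPolynomial.eval (coeff ω n) Z ∈ v.asIdeal) →
    (∀ T : ℕ, y ≤ T → (T : ℝ) ≤ (N : ℝ) ^ κ →
      |partialSum b (member F₀ h (coeff ω n)) r w T R| ≤ (T : ℝ) ^ (3 / 2 + δ)) ∧
    (∀ T₁ T₂ : ℕ, y ≤ T₁ → T₁ ≤ T₂ → (T₂ : ℝ) ≤ (N : ℝ) ^ κ → ∀ z : ℂ, 3 / 2 + δ ≤ z.re → |z.im| ≤ (T₁ : ℝ) ^ B →
      ‖dirichlet b (member F₀ h (coeff ω n)) r w T₁ T₂ R z‖ ≤ (T₁ : ℝ) ^ (3 / 2 + δ - z.re))

open Classical in
/-- For all generalised polynomials `P_j(s) = ∑ a j x s ^ x` with distinct leading exponents which are positive and not integers and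
have positive coefficients, all `δ > 0`, `A`, `B` there are `κ > 0` and `y₀` such that for all `y ≥ y₀`, all `N` and all sets `W`
of at most `y ^ B` weights with values in `[-1, 1]`: the member with the numbers `n_j = ⌊P_j(s)⌋` is `Good` for all integers `s` in
`(N, 2 N]` with at most `N / y ^ A` exceptions, and for all primes `s` in `(N, 2 N]` with the exception of at most a proportion
`1 / y ^ A` of them. -/
def Holds (b : ℕ) (ω : Fin g → 𝓞 K) (F₀ : (MvPolynomial (Fin (m + 1)) (𝓞 K))[X]) (h : Fin D → (MvPolynomial (Fin (m + 1)) (𝓞 K))[X])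
    (r : ℝ) (Z : MvPolynomial (Fin D) (𝓞 K)) : Prop :=
  ∀ (G : Fin (D * g) → Finset ℝ) (a : Fin (D * g) → ℝ → ℝ) (c : Fin (D * g) → ℝ), (∀ j, Admissible (G j) (a j) (c j)) →
    Function.Injective c → ∀ δ : ℝ, 0 < δ → ∀ A B : ℕ,
    ∃ κ : ℝ, 0 < κ ∧ ∃ y₀ : ℕ, ∀ y N : ℕ, y₀ ≤ y → ∀ W : Set (HeightOneSpectrum (𝓞 K) → ℝ),
      W.Finite → W.ncard ≤ y ^ B → (∀ w ∈ W, ∀ v, |w v| ≤ 1) →
      (((Ioc N (2 * N)).filter fun s => ¬ Good b ω F₀ h r Z δ κ B y N W (value G a s)).card : ℝ) ≤ 1 / (y : ℝ) ^ A * N ∧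
      ((((Ioc N (2 * N)).filter Nat.Prime).filter fun s => ¬ Good b ω F₀ h r Z δ κ B y N W (value G a s)).card : ℝ) ≤
        1 / (y : ℝ) ^ A * ((Ioc N (2 * N)).filter Nat.Prime).card

lemma average_eq (b : ℕ) (F : (MvPolynomial (Fin (m + 1)) (𝓞 K))[X]) (v : HeightOneSpectrum (𝓞 K)) :
    average b F v = Pool.Agent.N647.NG.BB b (Pool.Agent.N647.NG.mkv v) F := by
  have hq : norm v = Nat.card (𝓞 K ⧸ v.asIdeal) := by
    unfold norm
    rw [Pool.Agent.N842.HS.norm_card]
  unfold average Pool.Agent.N647.NG.BB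
  rw [hq]
  rfl

lemma partialSum_eq (b : ℕ) (F : (MvPolynomial (Fin (m + 1)) (𝓞 K))[X]) (r : ℝ) (w : HeightOneSpectrum (𝓞 K) → ℝ) (T : ℕ)
    (R : Set (HeightOneSpectrum (𝓞 K))) [DecidablePred (fun v => v ∉ R)] :
    partialSum b F r w T R = ∑ v ∈ (Pool.Agent.N842.HS.VT K T).filter (fun v => v ∉ R),
      w v * ((Pool.Agent.N647.NG.BB b (Pool.Agent.N647.NG.mkv v) F - (2 + r) * Ideal.absNorm v.asIdeal) *
        Real.log (Ideal.absNorm v.asIdeal)) := by
  classical
  have h1 : {v : HeightOneSpectrum (𝓞 K) | Ideal.absNorm v.asIdeal ≤ T ∧ v ∉ R} =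
      (((Pool.Agent.N842.HS.VT K T).filter (fun v => v ∉ R) : Finset (HeightOneSpectrum (𝓞 K))) : Set (HeightOneSpectrum (𝓞 K))) := by
    ext v
    rw [mem_coe, mem_filter, Pool.Agent.N842.HS.mem_VT]
    exact Iff.rfl
  unfold partialSum
  rw [h1, finsum_mem_coe_finset]
  refine sum_congr rfl fun v _ => ?_
  rw [average_eq]
  rfl

lemma dirichlet_eq (b : ℕ) (F : (MvPolynomial (Fin (m + 1)) (𝓞 K))[X]) (r : ℝ) (w : HeightOneSpectrum (𝓞 K) → ℝ) (T₁ T₂ : ℕ)
    (R : Set (HeightOneSpectrum (𝓞 K))) (z : ℂ) [DecidablePred (fun v => v ∉ R ∧ T₁ < Ideal.absNorm v.asIdeal)] :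
    dirichlet b F r w T₁ T₂ R z = ∑ v ∈ (Pool.Agent.N842.HS.VT K T₂).filter (fun v => v ∉ R ∧ T₁ < Ideal.absNorm v.asIdeal),
      ((w v * ((Pool.Agent.N647.NG.BB b (Pool.Agent.N647.NG.mkv v) F - (2 + r) * Ideal.absNorm v.asIdeal) *
        Real.log (Ideal.absNorm v.asIdeal)) : ℝ) : ℂ) * (Ideal.absNorm v.asIdeal : ℂ) ^ (-z) := by
  classical
  have h1 : {v : HeightOneSpectrum (𝓞 K) | T₁ < Ideal.absNorm v.asIdeal ∧ Ideal.absNorm v.asIdeal ≤ T₂ ∧ v ∉ R} =
      (((Pool.Agent.N842.HS.VT K T₂).filter (fun v => v ∉ R ∧ T₁ < Ideal.absNorm v.asIdeal) : Finset (HeightOneSpectrum (𝓞 K))) :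
        Set (HeightOneSpectrum (𝓞 K))) := by
    ext v
    rw [mem_coe, mem_filter, Pool.Agent.N842.HS.mem_VT]
    constructor
    · rintro ⟨h1, h2, h3⟩
      exact ⟨h2, h3, h1⟩
    · rintro ⟨h2, h3, h1⟩
      exact ⟨h1, h2, h3⟩
  unfold dirichlet
  rw [h1, finsum_mem_coe_finset]
  refine sum_congr rfl fun v _ => ?_
  rw [average_eq]
  unfold norm
  push_cast
  rfl

lemma g_pos (ω : Fin g → 𝓞 K) (hω : Submodule.span ℤ (Set.range ω) = ⊤) : 1 ≤ g := by
  rcases Nat.eq_zero_or_pos g with h0 | h0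
  · subst h0
    rw [Set.range_eq_empty, Submodule.span_empty] at hω
    have h1 : (1 : 𝓞 K) ∈ (⊥ : Submodule ℤ (𝓞 K)) := by
      rw [hω]
      exact Submodule.mem_top
    rw [Submodule.mem_bot] at h1
    exact absurd h1 one_ne_zero
  · exact h0

theorem holds_main (b : ℕ) (hD : 1 ≤ D) (ω : Fin g → 𝓞 K) (hω : Submodule.span ℤ (Set.range ω) = ⊤)
    (F₀ : (MvPolynomial (Fin (m + 1)) (𝓞 K))[X]) (h : Fin D → (MvPolynomial (Fin (m + 1)) (𝓞 K))[X])
    (hF : F₀.Monic) (ho : Odd F₀.natDegree) (hh : ∀ i, (h i).natDegree < F₀.natDegree) (r C₀ : ℝ)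
    (S : Set (HeightOneSpectrum (𝓞 K))) (hS : S.Finite) (hs : ∀ v ∉ S, Separated v h)
    (hb : ∀ v ∉ S, |coverPoints v F₀ h - basePoints v h - r * norm v ^ (m + 1)| ≤ C₀ * (norm v ^ (m + 1) / Real.sqrt (norm v)))
    (Z : MvPolynomial (Fin D) (𝓞 K)) (hZ : Z ≠ 0) : Holds b ω F₀ h r Z := by
  classical
  intro G a c ha hc δ hδ A B
  obtain ⟨g', hg'⟩ := ho
  have hDg : 1 ≤ D * g := Nat.one_le_iff_ne_zero.2 (Nat.mul_ne_zero (by omega) (by have := g_pos ω hω; omega))
  obtain ⟨κ, hκ, y₀, h1⟩ := Pool.Agent.N647.NG.surfT b F₀ h hF hg' (fun i => by rw [← hg']; exact hh i) r C₀ S hS hs hb Z hZ ω hω hDg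
    (G := G) (a := a) (c := c) ha hc δ hδ A B
  refine ⟨κ, hκ, y₀, fun y N hy W hW hWc hW1 => ?_⟩
  refine h1 y N hy W hW hWc hW1 (fun n => Good b ω F₀ h r Z δ κ B y N W n) fun n hn w hw R hR => ?_
  obtain ⟨h2, h3⟩ := hn w hw R hR
  refine ⟨fun T hyT hTN => ?_, fun T₁ T₂ hyT hT hTN z hz1 hz2 => ?_⟩
  · rw [partialSum_eq]
    exact h2 T hyT hTN
  · rw [dirichlet_eq]
    exact h3 T₁ T₂ hyT hT hTN z hz1 hz2

end

section explicit
variable (K : Type) [Field K] [NumberField K] (d r n e m : ℕ)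

/-- `(x - 1) ⋯ (x - r)`. -/
noncomputable def linearFactors : (MvPolynomial (Fin (m + 1)) (𝓞 K))[X] :=
  ∏ j ∈ range r, (X - C (((j + 1 : ℕ) : MvPolynomial (Fin (m + 1)) (𝓞 K))))

/-- `(x - 1) ⋯ (x - r) x ^ (d - r) + t ^ (2 n d)`. -/
noncomputable def fixedPart : (MvPolynomial (Fin (m + 1)) (𝓞 K))[X] :=
  linearFactors K r m * X ^ (d - r) + C (MvPolynomial.X 0 ^ (2 * (n * d)))

/-- The exponents `(a, β, α)` with `a < d - r`, `β ≤ 2 n (d - r - a)` and `α_k ≤ e`, `1 ≤ k ≤ m`. -/
abbrev Exponents : Type := (Σ a : Fin (d - r), Fin (2 * n * (d - r - a) + 1)) × (Fin m → Fin (e + 1))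

/-- `(x - 1) ⋯ (x - r) x ^ a t ^ β u ^ α` for `i = (a, β, α)`. -/
noncomputable def variablePart (i : Exponents d r n e m) : (MvPolynomial (Fin (m + 1)) (𝓞 K))[X] :=
  linearFactors K r m * (X ^ (i.1.1 : ℕ) * C (MvPolynomial.X 0 ^ (i.1.2 : ℕ) * ∏ k, MvPolynomial.X (Fin.succ k) ^ (i.2 k : ℕ)))

end explicit

/-- **Part 1.** Let `K` be a number field, `m ≥ 0`, `ω_1, ..., ω_g` generators of the group `𝓞 K` (for example an integral basis), `F₀`
a polynomial in `x`, `t` and `u = (u_1, ..., u_m)` over `𝓞 K` which is monic of odd degree in `x`, and `h_1, ..., h_D` polynomials of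
smaller degree in `x`.  Suppose that for all but finitely many prime ideals `v` the `h_i` separate the points outside the base locus
over the residue field, and that the sum of the quadratic character of `F₀` over the base locus is `r q_v ^ (m + 1)` up to
`O(q_v ^ (m + 1 / 2))` (for example if the base locus consists of `r` sections over which `F₀` is a square).  Then `Holds`, for every
nonzero polynomial `Z` and every `b` (which enters in the fibre at `t = ∞`; the case of projective surfaces is that in which the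
coefficients of `x ^ j` have degree at most `2 b (d - j)` in `t`): the sums `∑ w(v) (𝔅_v - (2 + r) q_v) log(q_v)`, `q_v ≤ T`, for
the fibrations in the surfaces `y² = F₀(t, u, x) + ∑ c_i h_i(t, u, x)` with `c_i = ∑ ⌊P_(i,j)(s)⌋ ω_j` are at most `T ^ (3 / 2 + δ)`
for `y ≤ T ≤ N ^ κ`, and the Dirichlet polynomials `∑ w(v) (𝔅_v - (2 + r) q_v) log(q_v) q_v ^ (-z)`, `T₁ < q_v ≤ T₂`, are at most
`T₁ ^ (3 / 2 + δ - Re z)` for `y ≤ T₁ ≤ T₂ ≤ N ^ κ` and `Re z ≥ 3 / 2 + δ`, `|Im z| ≤ T₁ ^ B`, for almost all integers, and almost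
all primes, `s` in `(N, 2 N]`.

**Part 2.** This is the case for the families `y² = (x - 1) ⋯ (x - r) (x ^ (d - r) + G_c(t, u, x)) + t ^ (2 n d)`, where `G_c` is the
polynomial with all the monomials `x ^ a t ^ β u ^ α` with `a < d - r`, `β ≤ 2 n (d - r - a)` and `α_k ≤ e`, for odd `d ≥ r + 2`,
`n ≥ 1` and `e ≥ 1`, which have the sections `(j, t ^ (n d))`, `1 ≤ j ≤ r` (`E` is an enumeration of the monomials). -/
theorem result :
    (∀ (K : Type) [Field K] [NumberField K] (b m D g : ℕ), 1 ≤ D → ∀ ω : Fin g → 𝓞 K, Submodule.span ℤ (Set.range ω) = ⊤ →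
      ∀ (F₀ : (MvPolynomial (Fin (m + 1)) (𝓞 K))[X]) (h : Fin D → (MvPolynomial (Fin (m + 1)) (𝓞 K))[X]),
      F₀.Monic → Odd F₀.natDegree → (∀ i, (h i).natDegree < F₀.natDegree) → ∀ (r C₀ : ℝ) (S : Set (HeightOneSpectrum (𝓞 K))), S.Finite →
      (∀ v ∉ S, Separated v h) →
      (∀ v ∉ S, |coverPoints v F₀ h - basePoints v h - r * norm v ^ (m + 1)| ≤ C₀ * (norm v ^ (m + 1) / Real.sqrt (norm v))) →
      ∀ Z : MvPolynomial (Fin D) (𝓞 K), Z ≠ 0 → Holds b ω F₀ h r Z) ∧
    (∀ (K : Type) [Field K] [NumberField K] (d r n e m D g : ℕ), r + 2 ≤ d → Odd d → 1 ≤ n → 1 ≤ e →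
      ∀ ω : Fin g → 𝓞 K, Submodule.span ℤ (Set.range ω) = ⊤ → ∀ E : Fin D ≃ Exponents d r n e m,
      ∀ Z : MvPolynomial (Fin D) (𝓞 K), Z ≠ 0 →
        Holds n ω (fixedPart K d r n m) (fun i => variablePart K d r n e m (E i)) r Z) := by
  refine ⟨fun K _ _ b m D g hD ω hω F₀ h hF ho hh r C₀ S hS hs hb Z hZ => holds_main b hD ω hω F₀ h hF ho hh r C₀ S hS hs hb Z hZ,
    fun K _ _ d r n e m D g hd ho hn he ω hω E Z hZ => ?_⟩
  have hD : 1 ≤ D := by
    by_contra hcon
    have h0 : D = 0 := by omega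
    subst h0
    exact (E.symm (⟨⟨0, by omega⟩, 0⟩, fun _ => 0)).elim0
  obtain ⟨h2, h3⟩ := Pool.Agent.N647.NG.Fs_deg (𝓞 K) d r n m (by omega)
  refine holds_main n hD ω hω _ _ h2 ?_ (fun i => ?_) r r _ (Pool.Agent.N647.NG.finite_e r) (fun v _ => ?_) (fun v hv => ?_) Z hZ
  · rw [h3]
    exact ho
  · rw [h3]
    exact Pool.Agent.N647.NG.hs_deg (𝓞 K) d r n e m (by omega) (E i)
  · exact Pool.Agent.N647.NG.sepV_s d r n e m D E hd hn he v
  · rw [Set.mem_union, not_or] at hv
    exact Pool.Agent.N647.NG.base_s d r n e m D E hd hn v hv.1 hv.2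

end Pool.Agent.Results.MP_6090f9_nt.ThinSequences
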